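import Pool.Agent.LRG.StmtsC

/-!
Row LEN of the squad LRG: `CjF S` is contained in every normal field which contains one conjugate of
every element of `S`.
-/

set_option autoImplicit false

open Polynomial NumberField

namespace Pool.Agent.LRG.H51

theorem len : CX.LenStmt := by
  intro Ω _ _ S L hN h
  unfold CX.CjF
  rw [IntermediateField.adjoin_le_iff]
  rintro c ⟨β, hβ, hc⟩
  obtain ⟨halg, c', hc'L, hc'⟩ := h β hβ
  have hint : IsIntegral ℚ β := halg.isIntegral
  obtain ⟨y, hy⟩ : ∃ y : L, (y : ℂ) = c' := ⟨⟨c', hc'L⟩, rfl⟩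
  have hy0 : aeval y (minpoly ℚ β) = 0 := by
    have h1 : algebraMap L ℂ (aeval y (minpoly ℚ β)) = 0 := by
      rw [← aeval_algebraMap_apply]
      have h2 : algebraMap L ℂ y = c' := hy
      rw [h2]
      exact hc'
    exact (map_eq_zero (algebraMap L ℂ)).mp h1
  have hmin : minpoly ℚ β = minpoly ℚ y :=
    minpoly.eq_of_irreducible_of_monic (minpoly.irreducible hint) hy0 (minpoly.monic hint)
  have hne : minpoly ℚ β ≠ 0 := minpoly.ne_zero hint
  have hc2 : c ∈ (minpoly ℚ β).rootSet ℂ := by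
    rw [mem_rootSet]
    exact ⟨hne, hc⟩
  rw [hmin, ← (hN.splits y).image_rootSet L.val] at hc2
  obtain ⟨z, -, hz⟩ := hc2
  rw [← hz]
  exact z.2

end Pool.Agent.LRG.H51
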